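import Pool.Agent.Helper63.Pak.Basic

/-! PT-C: Galois theory of `Ω`, transitivity on the points above a place. -/

namespace Pool.Agent.Helper63.Pak

open IntermediateField

variable {Ω : Type} [Field Ω] [Algebra ℂ Ω]

section

variable [CurveUniverse Ω]

theorem ptc_isAlgebraic {K : IntermediateField ℂ Ω} (hK : K ≠ ⊥) : Algebra.IsAlgebraic K Ω := by
  have h1 : Algebra.Transcendental ℂ K := by
    by_contra hcon
    rw [Algebra.transcendental_iff_not_isAlgebraic, not_not] at hcon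
    exact hK (IntermediateField.eq_bot_of_isAlgClosed_of_isAlgebraic K)
  have h2 := trdeg_add_eq ℂ K (A := Ω)
  rw [CurveUniverse.trdeg_eq (Ω := Ω)] at h2
  have h3 := trdeg_pos ℂ K
  rw [← trdeg_eq_zero_iff]
  by_contra h4
  have h5 : (1 : Cardinal) ≤ Algebra.trdeg K Ω := Cardinal.one_le_iff_ne_zero.2 h4
  have h6 : (1 : Cardinal) ≤ Algebra.trdeg ℂ K := Cardinal.one_le_iff_pos.2 h3
  have h7 := add_le_add h6 h5
  rw [h2] at h7
  have h8 : ((1 + 1 : ℕ) : Cardinal.{0}) ≤ ((1 : ℕ) : Cardinal.{0}) := by exact_mod_cast h7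
  have := Nat.cast_le.1 h8
  omega

theorem ptc_isGalois {K : IntermediateField ℂ Ω} (hK : K ≠ ⊥) : IsGalois K Ω := by
  have := ptc_isAlgebraic hK
  have : IsAlgClosed Ω := CurveUniverse.isAlgClosed
  have : IsAlgClosure K Ω := ⟨inferInstance, inferInstance⟩
  have : Normal K Ω := IsAlgClosure.normal K Ω
  exact ⟨⟩

end

/-- an automorphism fixing `K` as a `K`-automorphism -/
noncomputable def toGal {K : IntermediateField ℂ Ω} {g : Ω ≃ₐ[ℂ] Ω} (hg : Fixes g K) :
    Ω ≃ₐ[K] Ω :=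
  { g.toRingEquiv with commutes' := fun z => hg z z.2 }

theorem toGal_apply {K : IntermediateField ℂ Ω} {g : Ω ≃ₐ[ℂ] Ω} (hg : Fixes g K) (z : Ω) :
    toGal hg z = g z := rfl

/-- a `K`-automorphism as a `ℂ`-automorphism -/
noncomputable def ofGal {K : IntermediateField ℂ Ω} (g : Ω ≃ₐ[K] Ω) : Ω ≃ₐ[ℂ] Ω :=
  g.restrictScalars ℂ

theorem ofGal_apply {K : IntermediateField ℂ Ω} (g : Ω ≃ₐ[K] Ω) (z : Ω) : ofGal g z = g z := rfl

theorem fixes_ofGal {K : IntermediateField ℂ Ω} (g : Ω ≃ₐ[K] Ω) : Fixes (ofGal g) K :=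
  fun z hz => g.commutes ⟨z, hz⟩

variable [CurveUniverse Ω]

theorem mem_of_forall_fixes {K : IntermediateField ℂ Ω} (hK : FF K) {z : Ω}
    (h : ∀ g : Ω ≃ₐ[ℂ] Ω, Fixes g K → g z = z) : z ∈ K := by
  have := ptc_isGalois hK.2
  have h1 : z ∈ (⊥ : IntermediateField K Ω) := by
    rw [InfiniteGalois.mem_bot_iff_fixed]
    intro f
    exact h (ofGal f) (fixes_ofGal f)
  rw [IntermediateField.mem_bot] at h1
  obtain ⟨k, rfl⟩ := h1
  exact k.2

omit [CurveUniverse Ω] in
theorem ptc_extendScalars {K : IntermediateField ℂ Ω} (z : Ω) :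
    extendScalars (le_sup_left : K ≤ K ⊔ ℂ⟮z⟯) = K⟮z⟯ := by
  apply IntermediateField.restrictScalars_injective ℂ
  rw [extendScalars_restrictScalars, restrictScalars_adjoin_eq_sup]

theorem ptc_relfinrank {K : IntermediateField ℂ Ω} (hK : FF K) (z : Ω) :
    K.relfinrank (K ⊔ ℂ⟮z⟯) = (minpoly K z).natDegree := by
  have := ptc_isAlgebraic hK.2
  rw [relfinrank_eq_finrank_of_le (le_sup_left : K ≤ K ⊔ ℂ⟮z⟯), ptc_extendScalars,
    IntermediateField.adjoin.finrank (Algebra.IsIntegral.isIntegral z)]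

/-- number of conjugates -/
theorem ncard_conj {K : IntermediateField ℂ Ω} (hK : FF K) (z : Ω) :
    {w | ∃ g : Ω ≃ₐ[ℂ] Ω, Fixes g K ∧ g z = w}.Finite ∧
    {w | ∃ g : Ω ≃ₐ[ℂ] Ω, Fixes g K ∧ g z = w}.ncard = K.relfinrank (K ⊔ ℂ⟮z⟯) := by
  have := ptc_isGalois hK.2
  have : IsAlgClosed Ω := CurveUniverse.isAlgClosed
  have hint : IsIntegral K z := Algebra.IsIntegral.isIntegral z
  have hset : {w | ∃ g : Ω ≃ₐ[ℂ] Ω, Fixes g K ∧ g z = w} = (minpoly K z).rootSet Ω := by
    ext w
    rw [← isConjRoot_iff_mem_minpoly_rootSet hint]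
    constructor
    · rintro ⟨g, hg, rfl⟩
      exact (isConjRoot_iff_exists_algEquiv.2 ⟨toGal hg, rfl⟩ : IsConjRoot K (g z) z).symm
    · intro h
      obtain ⟨σ, hσ⟩ := isConjRoot_iff_exists_algEquiv.1 h.symm
      exact ⟨ofGal σ, fixes_ofGal σ, hσ⟩
  rw [hset, ptc_relfinrank hK]
  refine ⟨Polynomial.rootSet_finite _ _, ?_⟩
  rw [← Nat.card_coe_set_eq, Nat.card_eq_fintype_card]
  exact Polynomial.card_rootSet_eq_natDegree (Algebra.IsSeparable.isSeparable K z)
    (IsAlgClosed.splits _)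

theorem ptc_finiteDimensional {K K' : IntermediateField ℂ Ω} (hK : FF K) (hK' : FF K')
    (h : K ≤ K') : FiniteDimensional K (extendScalars h) := by
  have := ptc_isAlgebraic hK.2
  obtain ⟨t, ht⟩ := hK'.1
  have h1 : extendScalars h = adjoin K (t : Set Ω) := by
    apply IntermediateField.restrictScalars_injective ℂ
    rw [extendScalars_restrictScalars, restrictScalars_adjoin_eq_sup, ht]
    exact (sup_eq_right.2 h).symm
  rw [h1]
  exact finiteDimensional_adjoin fun x _ => Algebra.IsIntegral.isIntegral x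

theorem exists_primitive {K K' : IntermediateField ℂ Ω} (hK : FF K) (hK' : FF K') (h : K ≤ K') :
    ∃ z, K' = K ⊔ ℂ⟮z⟯ := by
  have := ptc_isGalois hK.2
  have := ptc_finiteDimensional hK hK' h
  obtain ⟨α, hα⟩ := Field.exists_primitive_element K (extendScalars h)
  refine ⟨α, ?_⟩
  have h1 : K⟮(α : Ω)⟯ = extendScalars h := by
    simpa only [lift_adjoin_simple, lift_top] using congr_arg lift hα
  have h2 := congrArg (IntermediateField.restrictScalars ℂ) h1
  rw [extendScalars_restrictScalars, restrictScalars_adjoin_eq_sup] at h2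
  exact h2.symm

/-! ### points above a place -/

/-- the valuation ring of `K` induced by `v`, as a subring of `Ω` -/
noncomputable def baseRing (v : Pt Ω) (K : IntermediateField ℂ Ω) : Subring Ω :=
  v.ring.toSubring ⊓ K.toSubring

omit [CurveUniverse Ω] in
theorem mem_baseRing {v : Pt Ω} {K : IntermediateField ℂ Ω} {z : Ω} :
    z ∈ baseRing v K ↔ z ∈ v.ring ∧ z ∈ K := Iff.rfl

omit [CurveUniverse Ω] [Algebra ℂ Ω] in
theorem isIntegral_of_forall {R : Subring Ω} {z : Ω}
    (h : ∀ W : ValuationSubring Ω, (R : Set Ω) ⊆ W → z ∈ W) : IsIntegral R z := by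
  have h1 := iInf_valuationSubring_superset (s := (R : Set Ω))
  have h2 : z ∈ (⨅ V : {V : ValuationSubring Ω // (R : Set Ω) ⊆ V.toSubring},
      V.1.toSubring) := by
    rw [Subring.mem_iInf]
    intro V
    exact h V.1 V.2
  rw [h1] at h2
  have h3 : IsIntegral (Subring.closure (R : Set Ω)) z := h2
  rw [Subring.closure_eq] at h3
  exact h3

omit [CurveUniverse Ω] in
theorem mem_ring_of_isIntegral {v : Pt Ω} {K : IntermediateField ℂ Ω} {z : Ω}
    (h : IsIntegral (baseRing v K) z) : z ∈ v.ring := by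
  have h1 := iInf_valuationSubring_superset (s := (baseRing v K : Set Ω))
  have h2 : z ∈ (integralClosure (Subring.closure (baseRing v K : Set Ω)) Ω).toSubring := by
    change IsIntegral (Subring.closure (baseRing v K : Set Ω)) z
    rw [Subring.closure_eq]
    exact h
  rw [← h1, Subring.mem_iInf] at h2
  exact h2 ⟨v.ring, fun x hx => hx.1⟩

theorem exists_normalised (v : Pt Ω) {K : IntermediateField ℂ Ω} (hK : K ≠ ⊥) (z : Ω) :
    ∃ (n i : ℕ) (a : ℕ → Ω), i ≤ n ∧ (∀ k, a k ∈ K) ∧ (∀ k, v.ring.valuation (a k) ≤ 1) ∧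
      v.ring.valuation (a i) = 1 ∧ (∀ k, i < k → k < n + 1 → v.ring.valuation (a k) < 1) ∧
      ∑ k ∈ Finset.range (n + 1), a k * z ^ k = 0 := by
  have := ptc_isAlgebraic hK
  obtain ⟨p, hp0, hp⟩ := Algebra.IsAlgebraic.isAlgebraic (R := K) z
  set c : ℕ → Ω := fun k => (p.coeff k : Ω) with hc
  have hsum : ∑ k ∈ Finset.range (p.natDegree + 1), c k * z ^ k = 0 := by
    rw [← hp, Polynomial.aeval_eq_sum_range]
    exact Finset.sum_congr rfl fun k _ => by rw [Algebra.smul_def]; rfl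
  obtain ⟨j, hj, hmax⟩ := Finset.exists_max_image (Finset.range (p.natDegree + 1))
    (fun k => v.ring.valuation (c k)) ⟨0, by simp⟩
  have hcj : c j ≠ 0 := by
    intro h
    have h1 := hmax p.natDegree (by simp)
    simp only [h, map_zero] at h1
    have h2 : c p.natDegree = 0 := by
      rw [← Valuation.zero_iff v.ring.valuation]
      exact le_antisymm h1 zero_le
    have h3 : p.leadingCoeff = 0 := by
      have : ((p.leadingCoeff : K) : Ω) = 0 := h2
      exact_mod_cast this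
    exact hp0 (Polynomial.leadingCoeff_eq_zero.1 h3)
  have hvj : v.ring.valuation (c j) ≠ 0 := (Valuation.ne_zero_iff _).2 hcj
  have hle : ∀ k, v.ring.valuation (c k / c j) ≤ 1 := by
    intro k
    rw [map_div₀]
    apply div_le_one_of_le₀ _ zero_le
    by_cases hk : k < p.natDegree + 1
    · exact hmax k (Finset.mem_range.2 hk)
    · have : c k = 0 := by
        simp only [hc]
        rw [Polynomial.coeff_eq_zero_of_natDegree_lt (by omega)]
        rfl
      rw [this, map_zero]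
      exact zero_le
  classical
  obtain ⟨i, hi, himax⟩ := Finset.exists_max_image
    ((Finset.range (p.natDegree + 1)).filter (fun k => v.ring.valuation (c k / c j) = 1))
    id ⟨j, by rw [Finset.mem_filter]; exact ⟨hj, by rw [div_self hcj, map_one]⟩⟩
  rw [Finset.mem_filter, Finset.mem_range] at hi
  refine ⟨p.natDegree, i, fun k => c k / c j, by omega, fun k => K.div_mem (p.coeff k).2
    (p.coeff j).2, hle, hi.2, fun k hk hk' => ?_, ?_⟩
  · refine lt_of_le_of_ne (hle k) fun h => ?_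
    have := himax k (by rw [Finset.mem_filter, Finset.mem_range]; exact ⟨hk', h⟩)
    simp only [id] at this
    omega
  · have h1 : ∀ k ∈ Finset.range (p.natDegree + 1), c k / c j * z ^ k = c k * z ^ k / c j :=
      fun k _ => by ring
    rw [Finset.sum_congr rfl h1, ← Finset.sum_div, hsum, zero_div]

theorem exists_fraction (v : Pt Ω) {K : IntermediateField ℂ Ω} (hK : K ≠ ⊥) {z : Ω}
    (hz : z ∈ v.ring) : ∃ s : Ω, IsIntegral (baseRing v K) s ∧ IsIntegral (baseRing v K) (s * z) ∧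
      v.ring.valuation s = 1 := by
  obtain ⟨n, i, a, hin, haK, hale, hai, halt, hsum⟩ := exists_normalised v hK z
  set s : Ω := ∑ m ∈ Finset.range (n + 1 - i), a (i + m) * z ^ m with hs
  have haR : ∀ k, a k ∈ baseRing v K := fun k =>
    ⟨(v.ring.valuation_le_one_iff _).1 (hale k), haK k⟩
  have h1 : z ^ i * s = -∑ k ∈ Finset.range i, a k * z ^ k := by
    have h2 : n + 1 = i + (n + 1 - i) := by omega
    rw [h2, Finset.sum_range_add] at hsum
    rw [eq_neg_iff_add_eq_zero, add_comm, ← hsum, hs, Finset.mul_sum]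
    congr 1
    exact Finset.sum_congr rfl fun m _ => by ring
  have key : ∀ W : ValuationSubring Ω, (baseRing v K : Set Ω) ⊆ W → s ∈ W ∧ s * z ∈ W := by
    intro W hW
    by_cases hzW : z ∈ W
    · have : s ∈ W := by
        rw [hs]
        exact W.toSubring.sum_mem fun m _ => W.mul_mem _ _ (hW (haR _)) (W.toSubring.pow_mem hzW m)
      exact ⟨this, W.mul_mem _ _ this hzW⟩
    · have hz0 : z ≠ 0 := fun h => hzW (h ▸ W.zero_mem)
      have hinv : z⁻¹ ∈ W := (W.mem_or_inv_mem z).resolve_left hzW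
      have h3 : s = -∑ k ∈ Finset.range i, a k * z⁻¹ ^ (i - k) := by
        have h4 : s = z⁻¹ ^ i * (z ^ i * s) := by
          rw [← mul_assoc, ← mul_pow, inv_mul_cancel₀ hz0, one_pow, one_mul]
        rw [h4, h1, mul_neg, Finset.mul_sum]
        congr 1
        refine Finset.sum_congr rfl fun k hk => ?_
        rw [Finset.mem_range] at hk
        have h5 : z⁻¹ ^ i = z⁻¹ ^ k * z⁻¹ ^ (i - k) := by
          rw [← pow_add]
          congr 1
          omega
        rw [h5]
        have h6 : z⁻¹ ^ k * z ^ k = 1 := by rw [← mul_pow, inv_mul_cancel₀ hz0, one_pow]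
        linear_combination a k * z⁻¹ ^ (i - k) * h6
      have h7 : s * z = -∑ k ∈ Finset.range i, a k * z⁻¹ ^ (i - k - 1) := by
        rw [h3, neg_mul, Finset.sum_mul]
        congr 1
        refine Finset.sum_congr rfl fun k hk => ?_
        rw [Finset.mem_range] at hk
        have h5 : z⁻¹ ^ (i - k) = z⁻¹ ^ (i - k - 1) * z⁻¹ := by
          rw [← pow_succ]
          congr 1
          omega
        rw [h5, mul_assoc, mul_assoc, inv_mul_cancel₀ hz0, mul_one]
      constructor
      · rw [h3]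
        exact W.neg_mem _ (W.toSubring.sum_mem fun m _ =>
          W.mul_mem _ _ (hW (haR _)) (W.toSubring.pow_mem hinv _))
      · rw [h7]
        exact W.neg_mem _ (W.toSubring.sum_mem fun m _ =>
          W.mul_mem _ _ (hW (haR _)) (W.toSubring.pow_mem hinv _))
  refine ⟨s, isIntegral_of_forall fun W hW => (key W hW).1,
    isIntegral_of_forall fun W hW => (key W hW).2, ?_⟩
  have h8 : n + 1 - i = (n - i) + 1 := by omega
  rw [hs, h8, Finset.sum_range_succ', pow_zero, mul_one, add_zero]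
  have h9 : v.ring.valuation (∑ m ∈ Finset.range (n - i), a (i + (m + 1)) * z ^ (m + 1)) < 1 := by
    apply Valuation.map_sum_lt _ one_ne_zero
    intro m hm
    rw [Finset.mem_range] at hm
    rw [map_mul, map_pow]
    have hz1 : v.ring.valuation z ≤ 1 := (v.ring.valuation_le_one_iff _).2 hz
    calc v.ring.valuation (a (i + (m + 1))) * v.ring.valuation z ^ (m + 1)
        ≤ v.ring.valuation (a (i + (m + 1))) * 1 := by
          gcongr
          exact pow_le_one₀ zero_le hz1
      _ < 1 := by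
          rw [mul_one]
          exact halt _ (by omega) (by omega)
  rw [Valuation.map_add_eq_of_lt_right _ (by rw [hai]; exact h9), hai]

/-- a point is determined by its centre on the integral closure -/
theorem ring_le_of_centre {v w : Pt Ω} {K : IntermediateField ℂ Ω} (hK : K ≠ ⊥)
    (h : SameOn K v w)
    (hc : ∀ s, IsIntegral (baseRing v K) s → v.ring.valuation s = 1 → w.ring.valuation s = 1) :
    v.ring ≤ w.ring := by
  intro z hz
  obtain ⟨s, hs, hsz, hs1⟩ := exists_fraction v hK hz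
  have hbase : baseRing w K = baseRing v K := by
    ext x
    rw [mem_baseRing, mem_baseRing]
    exact ⟨fun hx => ⟨(h x hx.2).2 hx.1, hx.2⟩, fun hx => ⟨(h x hx.2).1 hx.1, hx.2⟩⟩
  have h1 := hc s hs hs1
  have h2 : s * z ∈ w.ring := mem_ring_of_isIntegral (K := K) (by rw [hbase]; exact hsz)
  rw [← w.ring.valuation_le_one_iff] at h2 ⊢
  rwa [map_mul, h1, one_mul] at h2

omit [CurveUniverse Ω] in
theorem val_lt_one_iff (v : Pt Ω) (z : Ω) :
    v.ring.valuation z < 1 ↔ z = 0 ∨ z⁻¹ ∉ v.ring := by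
  by_cases hz : z = 0
  · simp [hz]
  · rw [← v.ring.valuation_le_one_iff, map_inv₀, not_le,
      one_lt_inv₀ (zero_lt_iff.2 ((Valuation.ne_zero_iff _).2 hz))]
    simp [hz]

omit [CurveUniverse Ω] in
theorem SameOn.val_lt_one {v w : Pt Ω} {K : IntermediateField ℂ Ω} (h : SameOn K v w) {z : Ω}
    (hz : z ∈ K) : v.ring.valuation z < 1 ↔ w.ring.valuation z < 1 := by
  rw [val_lt_one_iff, val_lt_one_iff, h _ (K.inv_mem hz)]

omit [CurveUniverse Ω] in
theorem smul_val_lt_one (g : Ω ≃ₐ[ℂ] Ω) (v : Pt Ω) (z : Ω) :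
    (g • v).ring.valuation z < 1 ↔ v.ring.valuation (g.symm z) < 1 := by
  rw [val_lt_one_iff, val_lt_one_iff, mem_smul_ring, map_inv₀]
  simp

omit [CurveUniverse Ω] in
theorem isIntegral_gal {v : Pt Ω} {K : IntermediateField ℂ Ω} (g : Ω ≃ₐ[K] Ω) {z : Ω}
    (hz : IsIntegral (baseRing v K) z) : IsIntegral (baseRing v K) (g z) := by
  let f : Ω →ₐ[baseRing v K] Ω :=
    { (g : Ω →+* Ω) with commutes' := fun r => g.commutes ⟨r.1, r.2.2⟩ }
  exact hz.map f

/-- the Galois group acts on the integral closure -/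
noncomputable instance actionClos (v : Pt Ω) (K : IntermediateField ℂ Ω) :
    MulSemiringAction (Ω ≃ₐ[K] Ω) (integralClosure (baseRing v K) Ω) where
  smul g b := ⟨g b.1, isIntegral_gal g b.2⟩
  one_smul _ := Subtype.ext rfl
  mul_smul _ _ _ := Subtype.ext rfl
  smul_zero g := Subtype.ext (map_zero g)
  smul_add g _ _ := Subtype.ext (map_add g _ _)
  smul_one g := Subtype.ext (map_one g)
  smul_mul g _ _ := Subtype.ext (map_mul g _ _)

omit [CurveUniverse Ω] in
theorem coe_actionClos {v : Pt Ω} {K : IntermediateField ℂ Ω} (g : Ω ≃ₐ[K] Ω)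
    (b : integralClosure (baseRing v K) Ω) : ((g • b : integralClosure (baseRing v K) Ω) : Ω) =
      g (b : Ω) := rfl

omit [CurveUniverse Ω] in
theorem baseRing_congr {v w : Pt Ω} {K : IntermediateField ℂ Ω} (h : SameOn K v w) :
    baseRing v K = baseRing w K := by
  ext x
  rw [mem_baseRing, mem_baseRing]
  exact ⟨fun hx => ⟨(h x hx.2).1 hx.1, hx.2⟩, fun hx => ⟨(h x hx.2).2 hx.1, hx.2⟩⟩

omit [CurveUniverse Ω] [Algebra ℂ Ω] in
theorem isIntegral_congr {R R' : Subring Ω} (h : R = R') {z : Ω} (hz : IsIntegral R z) :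
    IsIntegral R' z := by
  subst h
  exact hz

/-- the inclusion of the integral closure into the valuation ring of a point above -/
noncomputable def closHom {v w : Pt Ω} {K : IntermediateField ℂ Ω} (h : SameOn K v w) :
    integralClosure (baseRing v K) Ω →+* w.ring where
  toFun b := ⟨b.1, mem_ring_of_isIntegral (K := K) (isIntegral_congr (baseRing_congr h) b.2)⟩
  map_zero' := rfl
  map_one' := rfl
  map_add' _ _ := rfl
  map_mul' _ _ := rfl

/-- centre of a point above -/
noncomputable def centre {v w : Pt Ω} {K : IntermediateField ℂ Ω} (h : SameOn K v w) :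
    Ideal (integralClosure (baseRing v K) Ω) :=
  (IsLocalRing.maximalIdeal w.ring).comap (closHom h)

omit [CurveUniverse Ω] in
theorem mem_centre {v w : Pt Ω} {K : IntermediateField ℂ Ω} (h : SameOn K v w)
    (b : integralClosure (baseRing v K) Ω) :
    b ∈ centre h ↔ w.ring.valuation (b : Ω) < 1 := by
  rw [centre, Ideal.mem_comap, ValuationSubring.valuation_lt_one_iff]
  rfl

instance {v w : Pt Ω} {K : IntermediateField ℂ Ω} (h : SameOn K v w) : (centre h).IsPrime := by
  unfold centre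
  infer_instance

/-- Galois-conjugacy of the points above a place -/
theorem pt_transitive {v w : Pt Ω} {K : IntermediateField ℂ Ω} (hK : FF K) (h : SameOn K v w) :
    ∃ g : Ω ≃ₐ[ℂ] Ω, Fixes g K ∧ g • v = w := by
  have := ptc_isGalois hK.2
  let _ : TopologicalSpace (integralClosure (baseRing v K) Ω) := ⊥
  have : DiscreteTopology (integralClosure (baseRing v K) Ω) := ⟨rfl⟩
  have : SMulCommClass (Ω ≃ₐ[K] Ω) (baseRing v K) (integralClosure (baseRing v K) Ω) := by
    refine ⟨fun g a b => Subtype.ext ?_⟩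
    change g ((a : Ω) * (b : Ω)) = (a : Ω) * g (b : Ω)
    rw [map_mul]
    congr 1
    exact g.commutes ⟨a.1, a.2.2⟩
  have : Algebra.IsInvariant (baseRing v K) (integralClosure (baseRing v K) Ω) (Ω ≃ₐ[K] Ω) := by
    refine ⟨fun b hb => ?_⟩
    have hbK : (b : Ω) ∈ K := mem_of_forall_fixes hK fun g hg =>
      congrArg Subtype.val (hb (toGal hg))
    exact ⟨⟨b.1, mem_ring_of_isIntegral (K := K) b.2, hbK⟩, Subtype.ext rfl⟩
  have : ContinuousSMul (Ω ≃ₐ[K] Ω) (integralClosure (baseRing v K) Ω) := by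
    rw [continuousSMul_iff_stabilizer_isOpen]
    intro b
    have h1 := stabilizer_isOpen_of_isIntegral (K := K) (b : Ω)
    convert h1 using 1
    ext g
    simp only [SetLike.mem_coe, MulAction.mem_stabilizer_iff]
    exact Subtype.ext_iff
  have hunder : (centre (SameOn.refl K v)).under (baseRing v K) =
      (centre h).under (baseRing v K) := by
    ext a
    rw [Ideal.mem_comap, Ideal.mem_comap, mem_centre, mem_centre]
    exact h.val_lt_one a.2.2
  obtain ⟨g, hg⟩ := Algebra.IsInvariant.exists_smul_of_under_eq_of_profinite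
    (G := Ω ≃ₐ[K] Ω) (centre (SameOn.refl K v)) (centre h) hunder
  refine ⟨ofGal g, fixes_ofGal g, ?_⟩
  have hsame : SameOn K (ofGal g • v) v := SameOn.smul_of_fixes (fixes_ofGal g) v
  have hsame2 : SameOn K (ofGal g • v) w := hsame.trans h
  have hlt : ∀ s, IsIntegral (baseRing v K) s →
      (w.ring.valuation s < 1 ↔ (ofGal g • v).ring.valuation s < 1) := by
    intro s hs
    rw [smul_val_lt_one]
    have h1 := mem_centre h ⟨s, hs⟩
    rw [← h1, hg, Ideal.mem_pointwise_smul_iff_inv_smul_mem, mem_centre]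
    rfl
  have hle : ∀ s, IsIntegral (baseRing v K) s → w.ring.valuation s ≤ 1 := by
    intro s hs
    rw [w.ring.valuation_le_one_iff]
    exact mem_ring_of_isIntegral (K := K) (isIntegral_congr (baseRing_congr h) hs)
  have hle' : ∀ s, IsIntegral (baseRing v K) s → (ofGal g • v).ring.valuation s ≤ 1 := by
    intro s hs
    rw [(ofGal g • v).ring.valuation_le_one_iff]
    exact mem_ring_of_isIntegral (K := K) (isIntegral_congr (baseRing_congr hsame.symm) hs)
  apply Pt.ext
  apply le_antisymm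
  · refine ring_le_of_centre hK.2 hsame2 fun s hs hs1 => ?_
    replace hs := isIntegral_congr (baseRing_congr hsame) hs
    refine le_antisymm (hle s hs) (not_lt.1 fun hcon => ?_)
    rw [hlt s hs, hs1] at hcon
    exact lt_irrefl _ hcon
  · refine ring_le_of_centre hK.2 hsame2.symm fun s hs hs1 => ?_
    replace hs := isIntegral_congr (baseRing_congr h.symm) hs
    refine le_antisymm (hle' s hs) (not_lt.1 fun hcon => ?_)
    rw [← hlt s hs, hs1] at hcon
    exact lt_irrefl _ hcon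

/-! ### joint liftings -/

/-- the field fixed by `g` -/
noncomputable def fixF (g : Ω ≃ₐ[ℂ] Ω) : IntermediateField ℂ Ω where
  carrier := {z | g z = z}
  mul_mem' {a b} ha hb := by
    change g (a * b) = a * b
    rw [map_mul, show g a = a from ha, show g b = b from hb]
  add_mem' {a b} ha hb := by
    change g (a + b) = a + b
    rw [map_add, show g a = a from ha, show g b = b from hb]
  algebraMap_mem' c := g.commutes c
  inv_mem' a ha := by
    change g a⁻¹ = a⁻¹
    rw [map_inv₀, show g a = a from ha]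

omit [CurveUniverse Ω] in
theorem fixes_iff_le {g : Ω ≃ₐ[ℂ] Ω} {K : IntermediateField ℂ Ω} : Fixes g K ↔ K ≤ fixF g :=
  Iff.rfl

omit [CurveUniverse Ω] in
theorem fixes_sup_adjoin {g : Ω ≃ₐ[ℂ] Ω} {K : IntermediateField ℂ Ω} {θ : Ω} (h : Fixes g K)
    (hθ : g θ = θ) : Fixes g (K ⊔ ℂ⟮θ⟯) := by
  rw [fixes_iff_le, sup_le_iff]
  exact ⟨h, adjoin_simple_le_iff.2 hθ⟩

theorem ptc_relfinrank_pos {K K' : IntermediateField ℂ Ω} (hK : FF K) (hK' : FF K') (h : K ≤ K') :
    0 < K.relfinrank K' := by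
  have := ptc_finiteDimensional hK hK' h
  rw [relfinrank_eq_finrank_of_le h]
  exact Module.finrank_pos

theorem pt_exists_joint {v₁ v₂ : Pt Ω} {K K₁ K₂ : IntermediateField ℂ Ω} (hK : FF K) (h₁ : FF K₁)
    (h₂ : FF K₂) (h : K ≤ K₁) (h' : K ≤ K₂)
    (hd : K.relfinrank (K₁ ⊔ K₂) = K.relfinrank K₁ * K.relfinrank K₂) (hv : SameOn K v₁ v₂) :
    ∃ v, SameOn K₁ v v₁ ∧ SameOn K₂ v v₂ := by
  obtain ⟨g, hg, hgv⟩ := pt_transitive hK hv
  obtain ⟨θ, rfl⟩ := exists_primitive hK h₂ h'
  have hsup : K₁ ⊔ (K ⊔ ℂ⟮θ⟯) = K₁ ⊔ ℂ⟮θ⟯ := by rw [← sup_assoc, sup_eq_left.2 h]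
  rw [hsup] at hd
  have hmul : K.relfinrank K₁ * K₁.relfinrank (K₁ ⊔ ℂ⟮θ⟯) = K.relfinrank (K₁ ⊔ ℂ⟮θ⟯) :=
    relfinrank_mul_relfinrank h le_sup_left
  have hdeg : K₁.relfinrank (K₁ ⊔ ℂ⟮θ⟯) = K.relfinrank (K ⊔ ℂ⟮θ⟯) :=
    Nat.eq_of_mul_eq_mul_left (ptc_relfinrank_pos hK h₁ h) (hmul.trans hd)
  obtain ⟨hf, hc⟩ := ncard_conj hK θ
  obtain ⟨hf₁, hc₁⟩ := ncard_conj h₁ θ
  have hsub : {w | ∃ g : Ω ≃ₐ[ℂ] Ω, Fixes g K₁ ∧ g θ = w} ⊆
      {w | ∃ g : Ω ≃ₐ[ℂ] Ω, Fixes g K ∧ g θ = w} := fun w ⟨g', hg', hw⟩ => ⟨g', hg'.mono h, hw⟩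
  have heq := Set.eq_of_subset_of_ncard_le hsub (by rw [hc, hc₁, hdeg]) hf
  have hfix : Fixes g⁻¹ K := fun z hz => by
    change g.symm z = z
    conv_lhs => rw [← hg z hz]
    exact g.symm_apply_apply z
  have hmem : g⁻¹ θ ∈ {w | ∃ g : Ω ≃ₐ[ℂ] Ω, Fixes g K₁ ∧ g θ = w} := by
    rw [heq]
    exact ⟨g⁻¹, hfix, rfl⟩
  obtain ⟨k, hk, hkθ⟩ := hmem
  have hkfix : Fixes k⁻¹ K₁ := fun z hz => by
    change k.symm z = z
    conv_lhs => rw [← hk z hz]
    exact k.symm_apply_apply z
  refine ⟨k⁻¹ • v₁, SameOn.smul_of_fixes hkfix v₁, ?_⟩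
  have h3 : k⁻¹ • v₁ = (k⁻¹ * g⁻¹) • v₂ := by rw [← hgv, mul_smul, inv_smul_smul]
  rw [h3]
  apply SameOn.smul_of_fixes
  apply fixes_sup_adjoin
  · intro z hz
    rw [AlgEquiv.mul_apply, hfix z hz]
    exact hkfix z (h hz)
  · rw [AlgEquiv.mul_apply, ← hkθ]
    exact k.symm_apply_apply θ

end Pool.Agent.Helper63.Pak
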